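import Pool.Agent.Y892.DP.Stm2

set_option autoImplicit false

/-!
# Restriction of characters to a normal subgroup with cyclic quotient is multiplicity free
-/

open scoped Classical BigOperators
open Representation Pool.Agent.Helper884.IC

noncomputable section

namespace Pool.Agent.Y188.DP

open Pool.Agent.Y63.KR Pool.Agent.Y63.AWC Pool.Agent.Y892.DP

variable {G : Type} [Group G] [Fintype G] (N : Subgroup G) [N.Normal]
variable {V W : Type} [AddCommGroup V] [Module ℂ V] [FiniteDimensional ℂ V]
  [AddCommGroup W] [Module ℂ W] [FiniteDimensional ℂ W]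

/-- an equivariant map whose image is stable under `t` -/
lemma exists_stable (t : G) (rho : Representation ℂ G V) (sigma : Representation ℂ N W)
    (hs : sigma.IsIrreducible) (A : W →ₗ[ℂ] W) (hA0 : A ≠ 0)
    (hA : ∀ (x : N) (w : W), A (sigma x w) = sigma (MulAut.conjNormal t x) (A w))
    (f0 : W →ₗ[ℂ] V) (hf0 : f0 ≠ 0) (hf0' : ∀ (x : N) (w : W), f0 (sigma x w) = rho x (f0 w)) :
    ∃ f : W →ₗ[ℂ] V, f ≠ 0 ∧ (∀ (x : N) (w : W), f (sigma x w) = rho x (f w)) ∧
      ∀ w, ∃ w', rho t (f w) = f w' := by
  let M : Submodule ℂ (W →ₗ[ℂ] V) :=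
    { carrier := {f | ∀ (x : N) (w : W), f (sigma x w) = rho x (f w)}
      zero_mem' := by
        intro x w
        simp
      add_mem' := by
        intro a b ha hb x w
        simp only [LinearMap.add_apply, map_add]
        rw [ha x w, hb x w]
      smul_mem' := by
        intro c a ha x w
        simp only [LinearMap.smul_apply, map_smul]
        rw [ha x w] }
  let T : (W →ₗ[ℂ] V) →ₗ[ℂ] (W →ₗ[ℂ] V) :=
    { toFun := fun f => (rho t⁻¹).comp (f.comp A)
      map_add' := by
        intro f g
        ext w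
        simp
      map_smul' := by
        intro c f
        ext w
        simp }
  have hT : ∀ f ∈ M, T f ∈ M := by
    intro f hf x w
    change rho t⁻¹ (f (A (sigma x w))) = rho x (rho t⁻¹ (f (A w)))
    rw [hA, hf]
    rw [← Module.End.mul_apply, ← Module.End.mul_apply, ← map_mul, ← map_mul,
      MulAut.conjNormal_apply]
    congr 2
    group
  have hMnt : Nontrivial M := ⟨⟨⟨f0, hf0'⟩, 0, fun h => hf0 (congrArg Subtype.val h)⟩⟩
  obtain ⟨c, hc⟩ := Module.End.exists_eigenvalue (T.restrict hT)
  obtain ⟨⟨f, hfM⟩, hf⟩ := hc.exists_hasEigenvector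
  have hf1 : ∀ w, rho t⁻¹ (f (A w)) = c • f w := by
    intro w
    have h1 := hf.apply_eq_smul
    have h2 := congrArg Subtype.val h1
    exact congrArg (fun g : W →ₗ[ℂ] V => g w) h2
  have hfne : f ≠ 0 := by
    intro h
    apply hf.2
    exact Subtype.ext h
  have hf2 : ∀ w, f (A w) = c • rho t (f w) := by
    intro w
    have h1 := congrArg (rho t) (hf1 w)
    rw [← Module.End.mul_apply, ← map_mul, mul_inv_cancel, map_one, Module.End.one_apply,
      map_smul] at h1
    exact h1
  have hcne : c ≠ 0 := by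
    intro hc0
    subst hc0
    let K : Subrepresentation sigma :=
      { toSubmodule := LinearMap.ker f
        apply_mem_toSubmodule := by
          intro x v hv
          rw [LinearMap.mem_ker] at hv ⊢
          rw [hfM x v, hv, map_zero] }
    rcases hs.eq_bot_or_eq_top K with h | h
    · apply hA0
      ext w
      have h1 : A w ∈ K.toSubmodule := by
        change A w ∈ LinearMap.ker f
        rw [LinearMap.mem_ker, hf2 w, zero_smul]
      rw [h] at h1
      exact (Submodule.mem_bot ℂ).mp h1
    · apply hfne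
      ext w
      have h1 : w ∈ K.toSubmodule := by
        rw [h]
        exact Submodule.mem_top
      exact h1
  refine ⟨f, hfne, hfM, fun w => ⟨c⁻¹ • A w, ?_⟩⟩
  rw [map_smul, hf2, smul_smul, inv_mul_cancel₀ hcne, one_smul]

/-- the translates of the image fill the representation -/
lemma span_all (e : G) (s : ℕ) (hs : 0 < s) (hG : N ⊔ Subgroup.zpowers e = ⊤)
    (rho : Representation ℂ G V) (hr : rho.IsIrreducible) (sigma : Representation ℂ N W)
    (f : W →ₗ[ℂ] V) (hf : f ≠ 0) (hfN : ∀ (x : N) (w : W), f (sigma x w) = rho x (f w))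
    (hfs : ∀ w, ∃ w', rho (e ^ s) (f w) = f w') :
    Module.finrank ℂ V ≤ s * Module.finrank ℂ W := by
  let F : (Fin s → W) →ₗ[ℂ] V :=
    ∑ j : Fin s, (rho (e ^ (j : ℕ))).comp (f.comp (LinearMap.proj j))
  have hF : ∀ w, F w = ∑ j : Fin s, rho (e ^ (j : ℕ)) (f (w j)) := by
    intro w
    simp [F]
  have hmem : ∀ (j : ℕ) (w : W), j < s → rho (e ^ j) (f w) ∈ LinearMap.range F := by
    intro j w hj
    refine ⟨Pi.single (⟨j, hj⟩ : Fin s) w, ?_⟩
    rw [hF, Finset.sum_eq_single (⟨j, hj⟩ : Fin s)]
    · simp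
    · intro i _ hi
      rw [Pi.single_eq_of_ne hi]
      simp
    · intro h
      exact absurd (Finset.mem_univ _) h
  have hstep : ∀ g : G, (∀ (j : ℕ) (w : W), j < s → rho g (rho (e ^ j) (f w)) ∈ LinearMap.range F) →
      ∀ u ∈ LinearMap.range F, rho g u ∈ LinearMap.range F := by
    rintro g hg _ ⟨w, rfl⟩
    rw [hF, map_sum]
    exact Submodule.sum_mem _ fun j _ => hg j (w j) j.2
  have hN : ∀ x ∈ N, ∀ u ∈ LinearMap.range F, rho x u ∈ LinearMap.range F := by
    intro x hx
    refine hstep x fun j w hj => ?_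
    have h1 : (e ^ j)⁻¹ * x * (e ^ j) ∈ N := by
      have := (inferInstance : N.Normal).conj_mem x hx (e ^ j)⁻¹
      rwa [inv_inv] at this
    have h2 := hfN ⟨_, h1⟩ w
    have h3 : rho x (rho (e ^ j) (f w)) = rho (e ^ j) (f (sigma ⟨_, h1⟩ w)) := by
      rw [h2, ← Module.End.mul_apply, ← Module.End.mul_apply, ← map_mul, ← map_mul]
      congr 2
      change x * e ^ j = e ^ j * ((e ^ j)⁻¹ * x * (e ^ j))
      group
    rw [h3]
    exact hmem j _ hj
  have he : ∀ u ∈ LinearMap.range F, rho e u ∈ LinearMap.range F := by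
    refine hstep e fun j w hj => ?_
    rw [← Module.End.mul_apply, ← map_mul, ← pow_succ']
    rcases Nat.lt_or_ge (j + 1) s with h | h
    · exact hmem _ _ h
    · have h1 : j + 1 = s := by omega
      rw [h1]
      obtain ⟨w', hw'⟩ := hfs w
      rw [hw']
      have := hmem 0 w' hs
      simpa using this
  have hek : ∀ k : ℕ, ∀ u ∈ LinearMap.range F, rho (e ^ k) u ∈ LinearMap.range F := by
    intro k
    induction k with
    | zero => intro u hu; simpa using hu
    | succ k ih =>
      intro u hu
      rw [pow_succ', map_mul, Module.End.mul_apply]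
      exact he _ (ih u hu)
  have hall : ∀ g : G, ∀ u ∈ LinearMap.range F, rho g u ∈ LinearMap.range F := by
    intro g u hu
    have hg : g ∈ N ⊔ Subgroup.zpowers e := by
      rw [hG]
      exact Subgroup.mem_top g
    obtain ⟨x, hx, y, hy, rfl⟩ := Subgroup.mem_sup_of_normal_left.mp hg
    rw [← mem_powers_iff_mem_zpowers] at hy
    obtain ⟨k, rfl⟩ := hy
    rw [map_mul, Module.End.mul_apply]
    exact hN x hx _ (hek k u hu)
  let U : Subrepresentation rho :=
    { toSubmodule := LinearMap.range F
      apply_mem_toSubmodule := fun g u hu => hall g u hu }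
  have htop : LinearMap.range F = ⊤ := by
    rcases hr.eq_bot_or_eq_top U with h | h
    · exfalso
      apply hf
      ext w
      have h1 : f w ∈ U.toSubmodule := by
        have := hmem 0 w hs
        rw [pow_zero, map_one, Module.End.one_apply] at this
        exact this
      rw [h] at h1
      exact (Submodule.mem_bot ℂ).mp h1
    · have h1 : U.toSubmodule = ⊤ := by
        rw [h]
        rfl
      exact h1
  have h1 : Module.finrank ℂ V ≤ Module.finrank ℂ (Fin s → W) :=
    LinearMap.finrank_le_finrank_of_surjective (f := F) (LinearMap.range_eq_top.mp htop)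
  rwa [Module.finrank_pi_fintype, Finset.sum_const, Finset.card_univ, Fintype.card_fin,
    smul_eq_mul] at h1

theorem mul : S_MUL := by
  intro G _ _ N _ e χ ψ hG hχ hψ
  by_contra hcon
  push Not at hcon
  have hm0 : mult N χ ψ ≠ 0 := by omega
  -- the least power of `e` fixing `ψ`
  have hex : ∃ k : ℕ, 0 < k ∧ cj N (e ^ k) ψ = ψ :=
    ⟨orderOf e, orderOf_pos e, by rw [pow_orderOf_eq_one, cj_one]⟩
  set s := Nat.find hex with hsdef
  obtain ⟨hs0, hs1⟩ := Nat.find_spec hex
  have hmin : ∀ k : ℕ, 0 < k → k < s → cj N (e ^ k) ψ ≠ ψ := by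
    intro k hk hks h
    exact Nat.find_min hex hks ⟨hk, h⟩
  have horb : s ≤ (Orb N ψ).card := by
    have h1 : (Finset.range s).card ≤ (Orb N ψ).card := by
      apply Finset.card_le_card_of_injOn (fun j => cj N (e ^ j) ψ)
      · intro j _
        exact Finset.mem_coe.mpr (Finset.mem_image.mpr ⟨e ^ j, Finset.mem_univ _, rfl⟩)
      · have key : ∀ i j : ℕ, i < j → j < s → cj N (e ^ i) ψ ≠ cj N (e ^ j) ψ := by
          intro i j hij hj h
          apply hmin (j - i) (by omega) (by omega)
          have h2 : cj N (e ^ j) ψ = cj N (e ^ i) (cj N (e ^ (j - i)) ψ) := by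
            rw [← cj_mul, ← pow_add]
            congr 2
            omega
          rw [h2] at h
          have h3 := congrArg (cj N (e ^ i)⁻¹) h
          rw [← cj_mul, ← cj_mul, mul_inv_cancel, cj_one, cj_one] at h3
          exact h3.symm
        intro i hi j hj hij
        simp only [Finset.coe_range, Set.mem_Iio] at hi hj
        rcases lt_trichotomy i j with h | h | h
        · exact absurd hij (key i j h hj)
        · exact h
        · exact absurd hij.symm (key j i h hi)
    rwa [Finset.card_range] at h1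
  obtain ⟨V, _, _, _, rho, hr, hrχ⟩ := id hχ
  obtain ⟨W, _, _, _, sigma, hs, hsψ⟩ := id hψ
  have : Invertible (Nat.card N : ℂ) := invertibleOfNonzero cardG_ne
  -- the equivariant map
  obtain ⟨f0, hf0, hf0'⟩ : ∃ f0 : W →ₗ[ℂ] V, f0 ≠ 0 ∧
      ∀ (x : N) (w : W), f0 (sigma x w) = rho x (f0 w) := by
    let rho' : Representation ℂ N V := rho.comp N.subtype
    have h := Representation.card_inv_mul_sum_char_mul_char_eq_finrank sigma rho'
    have h2 := mult_spec N hχ hψ
    have h3 : B (res N χ) ψ = (Module.finrank ℂ (IntertwiningMap sigma rho') : ℂ) := by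
      rw [← h, hrχ, hsψ]
      rfl
    rw [h3] at h2
    have h4 : Module.finrank ℂ (IntertwiningMap sigma rho') = mult N χ ψ := by exact_mod_cast h2
    have h5 : Nontrivial (IntertwiningMap sigma rho') := by
      apply Module.nontrivial_of_finrank_pos (R := ℂ)
      omega
    obtain ⟨f, hf⟩ := exists_ne (0 : IntertwiningMap sigma rho')
    refine ⟨f.toLinearMap, fun h => hf (IntertwiningMap.ext (by rw [h]; rfl)), fun x w => ?_⟩
    exact IntertwiningMap.isIntertwining _ _ f x w
  obtain ⟨A, hA0, hA⟩ : ∃ A : W →ₗ[ℂ] W, A ≠ 0 ∧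
      ∀ (x : N) (w : W), A (sigma x w) = sigma (MulAut.conjNormal (e ^ s) x) (A w) := by
    let sigma' : Representation ℂ N W :=
      sigma.comp (MulAut.conjNormal (e ^ s) : N ≃* N).toMonoidHom
    have h := Representation.card_inv_mul_sum_char_mul_char_eq_finrank sigma sigma'
    have h3 : B (cj N (e ^ s) ψ) ψ = (Module.finrank ℂ (IntertwiningMap sigma sigma') : ℂ) := by
      rw [← h, hsψ]
      rfl
    rw [hs1, B_irr hψ hψ, if_pos rfl] at h3
    have h4 : Module.finrank ℂ (IntertwiningMap sigma sigma') = 1 := by exact_mod_cast h3.symm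
    have h5 : Nontrivial (IntertwiningMap sigma sigma') := by
      apply Module.nontrivial_of_finrank_pos (R := ℂ)
      omega
    obtain ⟨f, hf⟩ := exists_ne (0 : IntertwiningMap sigma sigma')
    refine ⟨f.toLinearMap, fun h => hf (IntertwiningMap.ext (by rw [h]; rfl)), fun x w => ?_⟩
    exact IntertwiningMap.isIntertwining _ _ f x w
  obtain ⟨f, hf, hfN, hfs⟩ := exists_stable N (e ^ s) rho sigma hs A hA0 hA f0 hf0 hf0'
  have hle := span_all N e s hs0 hG rho hr sigma f hf hfN hfs
  have hn : χ 1 = (Module.finrank ℂ V : ℂ) := by rw [hrχ]; exact rho.char_one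
  have hd : ψ 1 = (Module.finrank ℂ W : ℂ) := by rw [hsψ]; exact sigma.char_one
  have hdeg := deg_eq N hχ hψ hm0 hn hd
  have hd0 : 0 < Module.finrank ℂ W := by
    have := irr_nontrivial sigma hs
    exact Module.finrank_pos
  rw [hdeg] at hle
  have h1 : s * 2 * Module.finrank ℂ W ≤ (Orb N ψ).card * mult N χ ψ * Module.finrank ℂ W :=
    Nat.mul_le_mul_right _ (Nat.mul_le_mul horb hcon)
  have h2 : 0 < s * Module.finrank ℂ W := Nat.mul_pos hs0 hd0
  nlinarith

end Pool.Agent.Y188.DP
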